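import Pool.Agent.U260.GZ.Stm

/-!
Project GZ (helper260), package DI1: the diagonal sum without truncation. The weight `V` is an integral of the
normal density over a half line; after summation the integrand is twice a harmonic number, and
`|H_N - log z - γ| ≤ 2 / z` for `N < z ≤ N + 1`.
-/

set_option autoImplicit false

namespace Pool.Agent.U603.GDZ

open MeasureTheory Set
open Pool.Agent.Y969.GP (V)

/-- the partial sums of the harmonic series -/
theorem harm_bound {z : ℝ} (hz : 0 < z) :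
    |2 * (harmonic (⌈z⌉₊ - 1) : ℝ) - (2 * Real.log z + 2 * Real.eulerMascheroniConstant)| ≤ 4 * z⁻¹ := by
  obtain ⟨N, hN⟩ : ∃ N, ⌈z⌉₊ = N + 1 := ⟨⌈z⌉₊ - 1, by have := Nat.ceil_pos.2 hz; omega⟩
  have h1 : (N : ℝ) < z := Nat.lt_ceil.1 (by omega)
  have h2 : z ≤ N + 1 := by
    have := Nat.le_ceil z
    rw [hN] at this
    push_cast at this
    exact this
  rw [hN, Nat.add_sub_cancel]
  have hzi : 0 < z⁻¹ := inv_pos.2 hz
  have hN0 : (0 : ℝ) ≤ N := Nat.cast_nonneg N
  have hu : (harmonic N : ℝ) - Real.eulerMascheroniConstant - Real.log z ≤ z⁻¹ := by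
    have h3 : (harmonic N : ℝ) - Real.log (N + 1) < Real.eulerMascheroniConstant :=
      Real.eulerMascheroniSeq_lt_eulerMascheroniConstant N
    have h4 : Real.log ((N + 1) / z) ≤ (N + 1) / z - 1 := Real.log_le_sub_one_of_pos (by positivity)
    rw [Real.log_div (by positivity) hz.ne'] at h4
    have h5 : ((N : ℝ) + 1) / z - 1 ≤ z⁻¹ := by
      have : ((N : ℝ) + 1) / z - 1 = (N + 1 - z) * z⁻¹ := by field_simp
      rw [this]
      have h6 : (N + 1 - z) * z⁻¹ ≤ 1 * z⁻¹ := mul_le_mul_of_nonneg_right (by linarith) hzi.le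
      linarith
    linarith
  have hl : -(2 * z⁻¹) ≤ (harmonic N : ℝ) - Real.eulerMascheroniConstant - Real.log z := by
    rcases Nat.eq_zero_or_pos N with h0 | h0
    · subst h0
      have h3 : Real.log z ≤ 0 := Real.log_nonpos hz.le (by simpa using h2)
      have h4 := Real.eulerMascheroniConstant_lt_two_thirds
      have h5 : 1 ≤ z⁻¹ := (one_le_inv₀ hz).2 (by simpa using h2)
      rw [harmonic_zero]
      push_cast
      linarith
    · have h3 : Real.eulerMascheroniConstant < (harmonic N : ℝ) - Real.log N := by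
        have := Real.eulerMascheroniConstant_lt_eulerMascheroniSeq' N
        unfold Real.eulerMascheroniSeq' at this
        rwa [if_neg (by omega)] at this
      have hN1 : (1 : ℝ) ≤ N := by exact_mod_cast h0
      have h4 : Real.log (z / N) ≤ z / N - 1 := Real.log_le_sub_one_of_pos (by positivity)
      rw [Real.log_div hz.ne' (by positivity)] at h4
      have h5 : z / N - 1 ≤ 2 * z⁻¹ := by
        rw [div_sub_one (by positivity), div_le_iff₀ (by positivity)]
        have h6 : 1 ≤ 2 * z⁻¹ * N := by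
          rw [show 2 * z⁻¹ * (N : ℝ) = (2 * N) / z by field_simp, le_div_iff₀ hz]
          linarith
        linarith
      linarith
  rw [abs_le]
  constructor <;> linarith

/-- the normal density -/
noncomputable def ph (v : ℝ) : ℝ := (2 * √Real.pi)⁻¹ * Real.exp (-v ^ 2 / 4)

theorem ph_nonneg (v : ℝ) : 0 ≤ ph v := by unfold ph; positivity

theorem ph_cont : Continuous ph := by unfold ph; fun_prop

theorem ph_int : Integrable ph := by
  unfold ph
  refine Integrable.const_mul ?_ _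
  have h := integrable_exp_neg_mul_sq (show (0 : ℝ) < 1 / 4 by norm_num)
  refine h.congr (Filter.Eventually.of_forall fun v => ?_)
  show Real.exp (-(1 / 4) * v ^ 2) = Real.exp (-v ^ 2 / 4)
  congr 1
  ring

theorem ph_mul_int : Integrable fun v => v * ph v := by
  have h := (integrable_mul_exp_neg_mul_sq (show (0 : ℝ) < 1 / 4 by norm_num)).const_mul (2 * √Real.pi)⁻¹
  refine h.congr (Filter.Eventually.of_forall fun v => ?_)
  show (2 * √Real.pi)⁻¹ * (v * Real.exp (-(1 / 4) * v ^ 2)) = v * ((2 * √Real.pi)⁻¹ * Real.exp (-v ^ 2 / 4))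
  rw [show -(1 / 4) * v ^ 2 = -v ^ 2 / 4 by ring]
  ring

theorem ph_exp_int : Integrable fun v => ph v * Real.exp (-v / 2) := by
  have h := (ph_int.comp_add_right 1).const_mul (Real.exp (1 / 4))
  refine h.congr (Filter.Eventually.of_forall fun v => ?_)
  show Real.exp (1 / 4) * ((2 * √Real.pi)⁻¹ * Real.exp (-(v + 1) ^ 2 / 4)) =
    (2 * √Real.pi)⁻¹ * Real.exp (-v ^ 2 / 4) * Real.exp (-v / 2)
  have e : Real.exp (1 / 4) * Real.exp (-(v + 1) ^ 2 / 4) =
      Real.exp (-v ^ 2 / 4) * Real.exp (-v / 2) := by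
    rw [← Real.exp_add, ← Real.exp_add]
    congr 1
    ring
  linear_combination (2 * √Real.pi)⁻¹ * e

theorem ph_one : ∫ v, ph v = 1 := by
  unfold ph
  rw [integral_const_mul]
  have h := integral_gaussian (1 / 4)
  have e : ∀ v : ℝ, Real.exp (-(1 / 4) * v ^ 2) = Real.exp (-v ^ 2 / 4) := fun v => by
    congr 1; ring
  simp only [e] at h
  rw [h]
  have h2 : Real.pi / (1 / 4) = 2 ^ 2 * Real.pi := by ring
  rw [h2, Real.sqrt_mul (by positivity), Real.sqrt_sq (by norm_num)]
  exact inv_mul_cancel₀ (by positivity)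

theorem ph_odd : ∫ v, v * ph v = 0 := by
  have h := integral_neg_eq_self (fun v => v * ph v) volume
  have e : ∀ v : ℝ, -v * ph (-v) = -(v * ph v) := by
    intro v
    unfold ph
    rw [neg_sq]
    ring
  simp only [e] at h
  rw [integral_neg] at h
  linarith

/-- the point where the summation stops -/
noncomputable def zz (u v : ℝ) : ℝ := √u * Real.exp (v / 2) / √(2 * Real.pi)

theorem zz_pos {u : ℝ} (hu : 1 ≤ u) (v : ℝ) : 0 < zz u v := by
  unfold zz
  have : 0 < √u := Real.sqrt_pos.2 (by linarith)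
  positivity

theorem zz_iff {u : ℝ} (hu : 1 ≤ u) (v : ℝ) (n : ℕ) :
    Real.log (2 * Real.pi * ((n : ℝ) + 1) ^ 2 / u) < v ↔ (n : ℝ) + 1 < zz u v := by
  have hu0 : 0 < u := by linarith
  have hz := zz_pos hu v
  have hsq : zz u v ^ 2 = u * Real.exp v / (2 * Real.pi) := by
    unfold zz
    rw [div_pow, mul_pow, Real.sq_sqrt hu0.le, Real.sq_sqrt (by positivity), ← Real.exp_nat_mul]
    congr 3
    push_cast
    ring
  rw [Real.log_lt_iff_lt_exp (by positivity), ← pow_lt_pow_iff_left₀ (by positivity) hz.le (two_ne_zero),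
    hsq, div_lt_iff₀ hu0, lt_div_iff₀ (by positivity)]
  constructor <;> intro h <;> linarith

theorem zz_log {u : ℝ} (hu : 1 ≤ u) (v : ℝ) :
    2 * Real.log (zz u v) = Real.log (u / (2 * Real.pi)) + v := by
  have hu0 : 0 < u := by linarith
  have h1 : 0 < √u := Real.sqrt_pos.2 hu0
  unfold zz
  rw [Real.log_div (by positivity) (by positivity), Real.log_mul h1.ne' (Real.exp_pos _).ne', Real.log_exp,
    Real.log_sqrt hu0.le, Real.log_sqrt (by positivity), Real.log_div hu0.ne' (by positivity)]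
  ring

theorem zz_inv {u : ℝ} (hu : 1 ≤ u) (v : ℝ) :
    (zz u v)⁻¹ = √(2 * Real.pi) * u ^ (-(1 / 2 : ℝ)) * Real.exp (-v / 2) := by
  have hu0 : 0 < u := by linarith
  unfold zz
  rw [inv_div, Real.rpow_neg hu0.le, ← Real.sqrt_eq_rpow, neg_div, Real.exp_neg, div_eq_mul_inv, mul_inv]
  ring

/-- the summands -/
noncomputable def FF (u : ℝ) (n : ℕ) (v : ℝ) : ℝ :=
  2 / ((n : ℝ) + 1) * (Ioi (Real.log (2 * Real.pi * ((n : ℝ) + 1) ^ 2 / u))).indicator ph v

theorem FF_nonneg (u : ℝ) (n : ℕ) (v : ℝ) : 0 ≤ FF u n v := by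
  unfold FF
  exact mul_nonneg (by positivity) (indicator_nonneg (fun x _ => ph_nonneg x) v)

theorem FF_int (u : ℝ) (n : ℕ) : Integrable (FF u n) :=
  (ph_int.indicator measurableSet_Ioi).const_mul _

theorem FF_val (u : ℝ) (n : ℕ) : ∫ v, FF u n v =
    2 / ((n : ℝ) + 1) * V (2 * Real.pi * ((n : ℝ) + 1) ^ 2 / u) := by
  unfold FF V
  rw [integral_const_mul, integral_indicator measurableSet_Ioi]
  unfold ph
  rw [integral_const_mul]

theorem FF_tsum {u : ℝ} (hu : 1 ≤ u) (v : ℝ) :
    ∑' n, FF u n v = ph v * (2 * (harmonic (⌈zz u v⌉₊ - 1) : ℝ)) := by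
  have hz := zz_pos hu v
  obtain ⟨N, hN⟩ : ∃ N, ⌈zz u v⌉₊ = N + 1 := ⟨⌈zz u v⌉₊ - 1, by have := Nat.ceil_pos.2 hz; omega⟩
  rw [hN, Nat.add_sub_cancel, tsum_eq_sum (s := Finset.range N)]
  · unfold harmonic
    push_cast
    rw [Finset.mul_sum, Finset.mul_sum]
    refine Finset.sum_congr rfl fun n hn => ?_
    rw [Finset.mem_range] at hn
    have h1 : (n : ℝ) + 1 < zz u v := by
      have h2 : ((n + 1 : ℕ) : ℝ) < zz u v := Nat.lt_ceil.1 (by omega)
      push_cast at h2
      exact h2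
    unfold FF
    have h3 : v ∈ Ioi (Real.log (2 * Real.pi * ((n : ℝ) + 1) ^ 2 / u)) := (zz_iff hu v n).2 h1
    rw [indicator_of_mem h3]
    field_simp
  · intro n hn
    rw [Finset.mem_range, not_lt] at hn
    have h1 : ¬ ((n : ℝ) + 1 < zz u v) := by
      intro h2
      have h3 : ((n + 1 : ℕ) : ℝ) < zz u v := by push_cast; exact h2
      have := Nat.lt_ceil.2 h3
      omega
    unfold FF
    have h3 : v ∉ Ioi (Real.log (2 * Real.pi * ((n : ℝ) + 1) ^ 2 / u)) :=
      fun h => h1 ((zz_iff hu v n).1 h)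
    rw [indicator_of_notMem h3, mul_zero]

theorem t_DI1 (h : Pool.Agent.Y969.GP.S_V) : Pool.Agent.U260.GZ.S_DI1 := by
  obtain ⟨h01, -, -, -, -, hdec, -⟩ := h
  obtain ⟨C1, hC1, hV⟩ := hdec 1 zero_le_one
  set E : ℝ := ∫ v, ph v * Real.exp (-v / 2) with hE
  have hE0 : 0 ≤ E := integral_nonneg fun v => mul_nonneg (ph_nonneg v) (Real.exp_pos _).le
  refine ⟨4 * √(2 * Real.pi) * E + 1, by positivity, fun u hu => ?_⟩
  have hu0 : 0 < u := by linarith
  have hsum : Summable (fun n : ℕ => 2 / ((n : ℝ) + 1) *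
      V (2 * Real.pi * ((n : ℝ) + 1) ^ 2 / u)) := by
    have hs : Summable fun n : ℕ => (C1 * u / Real.pi) * (1 / ((n : ℝ) + 1) ^ 2) := by
      refine Summable.mul_left _ ?_
      have := (summable_nat_add_iff 1).2 (Real.summable_one_div_nat_pow.2 (show 1 < 2 by norm_num))
      simpa using this
    refine Summable.of_nonneg_of_le (fun n => ?_) (fun n => ?_) hs
    · exact mul_nonneg (by positivity) (h01 _ (by positivity)).1
    · have hn0 : (0 : ℝ) ≤ n := Nat.cast_nonneg n
      have h1 := hV (2 * Real.pi * ((n : ℝ) + 1) ^ 2 / u) (by positivity)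
      rw [Real.rpow_neg (by positivity), Real.rpow_one] at h1
      calc 2 / ((n : ℝ) + 1) * V (2 * Real.pi * ((n : ℝ) + 1) ^ 2 / u)
          ≤ 2 / ((n : ℝ) + 1) * (C1 * (2 * Real.pi * ((n : ℝ) + 1) ^ 2 / u)⁻¹) :=
            mul_le_mul_of_nonneg_left h1 (by positivity)
        _ ≤ 2 * (C1 * (2 * Real.pi * ((n : ℝ) + 1) ^ 2 / u)⁻¹) := by
            refine mul_le_mul_of_nonneg_right ?_ (by positivity)
            rw [div_le_iff₀ (by positivity)]
            linarith
        _ = (C1 * u / Real.pi) * (1 / ((n : ℝ) + 1) ^ 2) := by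
            field_simp
  refine ⟨hsum, ?_⟩
  have hnorm : ∀ n, ∫ v, ‖FF u n v‖ = 2 / ((n : ℝ) + 1) * V (2 * Real.pi * ((n : ℝ) + 1) ^ 2 / u) := by
    intro n
    rw [← FF_val]
    refine integral_congr_ae (Filter.Eventually.of_forall fun v => ?_)
    exact Real.norm_of_nonneg (FF_nonneg u n v)
  have hHS := hasSum_integral_of_summable_integral_norm (F := FF u) (μ := volume) (FF_int u)
    (by simp only [hnorm]; exact hsum)
  simp only [FF_val, FF_tsum hu] at hHS
  rw [hHS.tsum_eq]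
  set L : ℝ := Real.log (u / (2 * Real.pi)) + 2 * Real.eulerMascheroniConstant with hL
  have hD0 : Pool.Agent.N879.GD.D0 u = ∫ v, (ph v * L + v * ph v) := by
    rw [integral_add (ph_int.mul_const L) ph_mul_int, integral_mul_const, ph_one, ph_odd]
    unfold Pool.Agent.N879.GD.D0
    rw [hL]
    ring
  have hpt : ∀ v, |ph v * (2 * (harmonic (⌈zz u v⌉₊ - 1) : ℝ)) - (ph v * L + v * ph v)| ≤
      4 * √(2 * Real.pi) * u ^ (-(1 / 2 : ℝ)) * (ph v * Real.exp (-v / 2)) := by
    intro v
    have h1 := harm_bound (zz_pos hu v)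
    rw [zz_log hu, zz_inv hu] at h1
    have e : ph v * (2 * (harmonic (⌈zz u v⌉₊ - 1) : ℝ)) - (ph v * L + v * ph v) =
        ph v * (2 * (harmonic (⌈zz u v⌉₊ - 1) : ℝ) - (Real.log (u / (2 * Real.pi)) + v +
          2 * Real.eulerMascheroniConstant)) := by
      rw [hL]; ring
    rw [e, abs_mul, abs_of_nonneg (ph_nonneg v)]
    calc _ ≤ ph v * (4 * (√(2 * Real.pi) * u ^ (-(1 / 2 : ℝ)) * Real.exp (-v / 2))) :=
          mul_le_mul_of_nonneg_left h1 (ph_nonneg v)
      _ = _ := by ring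
  have hmeas : Measurable fun v : ℝ => ph v * (2 * (harmonic (⌈zz u v⌉₊ - 1) : ℝ)) := by
    have hz : Measurable (zz u) := by
      unfold zz
      fun_prop
    have h1 : Measurable fun v : ℝ => ⌈zz u v⌉₊ := Nat.measurable_ceil.comp hz
    have h2 : Measurable fun v : ℝ => (harmonic (⌈zz u v⌉₊ - 1) : ℝ) :=
      (measurable_from_nat (f := fun n : ℕ => ((harmonic (n - 1) : ℚ) : ℝ))).comp h1
    exact ph_cont.measurable.mul (h2.const_mul 2)
  have hI2 : Integrable fun v => ph v * L + v * ph v := (ph_int.mul_const L).add ph_mul_int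
  have hdiff : Integrable fun v => ph v * (2 * (harmonic (⌈zz u v⌉₊ - 1) : ℝ)) -
      (ph v * L + v * ph v) := by
    refine Integrable.mono' (ph_exp_int.const_mul (4 * √(2 * Real.pi) * u ^ (-(1 / 2 : ℝ))))
      (hmeas.aestronglyMeasurable.sub hI2.aestronglyMeasurable) (Filter.Eventually.of_forall fun v => ?_)
    rw [Real.norm_eq_abs]
    exact hpt v
  have hI1 : Integrable fun v => ph v * (2 * (harmonic (⌈zz u v⌉₊ - 1) : ℝ)) := by
    have := hdiff.add hI2
    refine this.congr (Filter.Eventually.of_forall fun v => ?_)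
    simp
  rw [hD0, ← integral_sub hI1 hI2]
  have hfin := norm_integral_le_of_norm_le
    (ph_exp_int.const_mul (4 * √(2 * Real.pi) * u ^ (-(1 / 2 : ℝ))))
    (Filter.Eventually.of_forall fun v => by rw [Real.norm_eq_abs]; exact hpt v)
  rw [integral_const_mul, Real.norm_eq_abs] at hfin
  refine hfin.trans ?_
  have hur : 0 < u ^ (-(1 / 2 : ℝ)) := Real.rpow_pos_of_pos hu0 _
  nlinarith

end Pool.Agent.U603.GDZ
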