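import Pool.Agent.U79.GZ.Stm

/-! Project GZ, package FF: the corrections of the two isogenies. -/

set_option autoImplicit false

open scoped Classical

namespace Pool.Agent.U603.GZ

open Pool.Agent.U79.GZ Pool.Agent.U115.GE
open Pool.Agent.Y687 (prime_cast_ne)
open Pool.Agent.U255.GY (ff)
open Pool.Agent.U79.GY (s4)

/-- for `p = 3` modulo `4` the two descents have opposite conditions -/
theorem rt_dual3 {p : ℕ} {a b : ℤ} [hp : Fact p.Prime] (hp4 : p % 4 = 3)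
    (hb : IsSquare (b : ZMod p)) (hb0 : (b : ZMod p) ≠ 0)
    (hc : IsSquare ((a ^ 2 - 4 * b : ℤ) : ZMod p)) (hc0 : ((a ^ 2 - 4 * b : ℤ) : ZMod p) ≠ 0) :
    RtG (-2 * a) (a ^ 2 - 4 * b) p 1 ↔ ¬ RtG a b p 1 := by
  have hp2 : p ≠ 2 := by rintro rfl; omega
  have hm0 : ((1 : ℕ) : ZMod p) ≠ 0 := by
    rw [Nat.cast_one]; exact one_ne_zero
  have hi : ¬ IsSquare (-1 : ZMod p) := by
    rw [ZMod.exists_sq_eq_neg_one_iff]
    omega
  obtain ⟨ρ, hρ⟩ := exists_root (m := 1) hp2 hc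
  obtain ⟨β, hβ⟩ := hb
  set X : ZMod p := (((1 : ℕ) : ZMod p)) * (a + 2 * β) with hXd
  have hX : X ^ 2 + ((-2 * a : ℤ) : ZMod p) * ((1 : ℕ) : ZMod p) * X +
      ((a ^ 2 - 4 * b : ℤ) : ZMod p) * ((1 : ℕ) : ZMod p) ^ 2 = 0 := by
    rw [hXd]
    push_cast
    linear_combination (-4 : ZMod p) * hβ
  rw [rtG_iff hc hc0 hm0 hX, rtG_iff ⟨β, hβ⟩ hb0 hm0 hρ, not_iff_not]
  have hρ0 : ρ ≠ 0 := by
    rintro rfl
    have : (b : ZMod p) * ((1 : ℕ) : ZMod p) ^ 2 = 0 := by linear_combination hρ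
    exact mul_ne_zero hb0 (pow_ne_zero 2 hm0) this
  have hX0 : X ≠ 0 := by
    intro h0
    rw [h0] at hX
    have : ((a ^ 2 - 4 * b : ℤ) : ZMod p) * ((1 : ℕ) : ZMod p) ^ 2 = 0 := by linear_combination hX
    exact mul_ne_zero hc0 (pow_ne_zero 2 hm0) this
  have e2 : X * ρ = (-1) * (ρ - β) ^ 2 := by
    rw [hXd]
    push_cast at hρ ⊢
    linear_combination hρ - hβ
  have hd0 : ρ - β ≠ 0 := by
    intro h0
    rw [h0] at e2
    exact mul_ne_zero hX0 hρ0 (by rw [e2]; ring)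
  have hq : quadraticChar (ZMod p) X * quadraticChar (ZMod p) ρ = -1 := by
    rw [← map_mul, e2, map_mul, map_pow, quadraticChar_sq_one hd0, mul_one]
    exact quadraticChar_neg_one_iff_not_isSquare.2 hi
  constructor
  · intro h1 h2
    have h2' : quadraticChar (ZMod p) ρ = 1 := (quadraticChar_one_iff_isSquare hρ0).2 h2
    have h1' : quadraticChar (ZMod p) X = 1 := (quadraticChar_one_iff_isSquare hX0).2 h1
    rw [h1', h2'] at hq
    norm_num at hq
  · intro h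
    have h' : quadraticChar (ZMod p) ρ = -1 := quadraticChar_neg_one_iff_not_isSquare.2 h
    rw [h'] at hq
    refine (quadraticChar_one_iff_isSquare hX0).1 ?_
    omega

theorem t_FF : S_FF := by
  intro a b p hp hp2 hb0 hc0 hb hc
  have : Fact p.Prime := ⟨hp⟩
  unfold ff s4
  have hodd : p % 2 = 1 := hp.eq_two_or_odd.resolve_left hp2
  by_cases h4 : p % 4 = 3
  · rw [if_pos h4]
    have h := rt_dual3 h4 hb hb0 hc hc0
    by_cases h1 : RtG a b p 1
    · rw [if_pos h1, if_neg (fun h2 => (h.1 h2) h1)]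
      decide
    · rw [if_neg h1, if_pos (h.2 h1)]
      decide
  · rw [if_neg h4, add_zero]
    have hm0 : ((1 : ℕ) : ZMod p) ≠ 0 := by
      rw [Nat.cast_one]; exact one_ne_zero
    have h := rt_dual (m := 1) (by omega) hb hb0 hc hc0 hm0
    by_cases h1 : RtG a b p 1
    · rw [if_pos h1, if_pos (h.2 h1)]
    · rw [if_neg h1, if_neg (fun h2 => h1 (h.1 h2))]

end Pool.Agent.U603.GZ
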